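import Pool.Agent.H92.EQ.TF2

/-!
# G4: the degree formula for `pair`
-/

set_option autoImplicit false

namespace Pool.Agent.H17.EQD

open scoped BigOperators ComplexConjugate ContDiff ComplexOrder
open MeasureTheory Filter Topology
open Pool.Agent.H92.EQ

noncomputable section

/-- the last slot is linear -/
theorem mixD_last {ι : Type} [Fintype ι] [DecidableEq ι] {p m : ℕ}
    (S : (Fin p → ι) → (Fin p → ι) → ℂ) (H : Fin m → Matrix ι ι ℂ) (X Y : Matrix ι ι ℂ) (c : ℂ) :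
    mixD S (Fin.snoc (α := fun _ => Matrix ι ι ℂ) H (X - c • Y)) =
      mixD S (Fin.snoc (α := fun _ => Matrix ι ι ℂ) H X) -
        c * mixD S (Fin.snoc (α := fun _ => Matrix ι ι ℂ) H Y) := by
  unfold mixD
  rw [Finset.mul_sum, ← Finset.sum_sub_distrib]
  refine Finset.sum_congr rfl fun e _ => ?_
  rw [Finset.mul_sum, ← Finset.sum_sub_distrib]
  refine Finset.sum_congr rfl fun e' _ => ?_
  simp only [Fin.prod_univ_castSucc, Fin.snoc_castSucc, Fin.snoc_last]
  simp only [Matrix.sub_apply, Matrix.smul_apply, smul_eq_mul]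
  ring

theorem quad_form {N : ℕ} (J R : Matrix (Fin N) (Fin N) ℂ) (z : Fin N → ℂ) :
    ∑ a, ∑ b, z a * (∑ a', ∑ b', J a' a * conj (J b' b) * R a' b') * conj (z b) =
      ∑ a', ∑ b', J.mulVec z a' * R a' b' * conj (J.mulVec z b') := by
  have h1 : ∀ a b, z a * (∑ a', ∑ b', J a' a * conj (J b' b) * R a' b') * conj (z b) =
      ∑ a', ∑ b', J a' a * z a * R a' b' * (conj (J b' b) * conj (z b)) := by
    intro a b
    rw [Finset.mul_sum, Finset.sum_mul]
    refine Finset.sum_congr rfl fun a' _ => ?_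
    rw [Finset.mul_sum, Finset.sum_mul]
    refine Finset.sum_congr rfl fun b' _ => ?_
    ring
  have h2 : ∀ a' b', J.mulVec z a' * R a' b' * conj (J.mulVec z b') =
      ∑ a, ∑ b, J a' a * z a * R a' b' * (conj (J b' b) * conj (z b)) := by
    intro a' b'
    have e1 : J.mulVec z a' = ∑ a, J a' a * z a := rfl
    have e2 : J.mulVec z b' = ∑ b, J b' b * z b := rfl
    rw [e1, e2, map_sum, Finset.sum_mul, Finset.sum_mul]
    refine Finset.sum_congr rfl fun a _ => ?_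
    rw [Finset.mul_sum]
    refine Finset.sum_congr rfl fun b _ => ?_
    rw [map_mul]
  simp_rw [h1, h2]
  calc ∑ a, ∑ b, ∑ a', ∑ b', J a' a * z a * R a' b' * (conj (J b' b) * conj (z b))
      = ∑ a, ∑ a', ∑ b, ∑ b', J a' a * z a * R a' b' * (conj (J b' b) * conj (z b)) :=
        Finset.sum_congr rfl fun a _ => Finset.sum_comm
    _ = ∑ a', ∑ a, ∑ b, ∑ b', J a' a * z a * R a' b' * (conj (J b' b) * conj (z b)) :=
        Finset.sum_comm
    _ = ∑ a', ∑ a, ∑ b', ∑ b, J a' a * z a * R a' b' * (conj (J b' b) * conj (z b)) :=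
        Finset.sum_congr rfl fun a' _ => Finset.sum_congr rfl fun a _ => Finset.sum_comm
    _ = ∑ a', ∑ b', ∑ a, ∑ b, J a' a * z a * R a' b' * (conj (J b' b) * conj (z b)) :=
        Finset.sum_congr rfl fun a' _ => Finset.sum_comm

theorem nsq_pos {N : ℕ} {w : Fin N → ℂ} (hw : w ≠ 0) : 0 < nsq w := by
  have h0 : 0 ≤ nsq w := Finset.sum_nonneg fun i _ => by positivity
  refine lt_of_le_of_ne h0 fun h => hw ?_
  funext i
  have h1 := (Finset.sum_eq_zero_iff_of_nonneg (fun i _ => by positivity)).1 h.symm i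
    (Finset.mem_univ i)
  exact norm_eq_zero.1 (pow_eq_zero_iff (two_ne_zero) |>.1 h1)

theorem rad_form {N : ℕ} {w : Fin N → ℂ} (hw : w ≠ 0) :
    ∑ a, ∑ b, w a * Rad w a b * conj (w b) = 1 / 4 := by
  have hn : ((nsq w : ℝ) : ℂ) ≠ 0 := by exact_mod_cast (nsq_pos hw).ne'
  have hs : ∑ a, w a * conj (w a) = ((nsq w : ℝ) : ℂ) := by
    unfold nsq
    push_cast
    refine Finset.sum_congr rfl fun a _ => ?_
    exact Complex.mul_conj' (w a)
  have h : ∀ a b, w a * Rad w a b * conj (w b) =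
      (w a * conj (w a)) * (w b * conj (w b)) * (1 / (4 * ((nsq w : ℝ) : ℂ) ^ 2)) := by
    intro a b
    unfold Rad
    ring
  simp_rw [h, ← Finset.sum_mul, ← Finset.mul_sum, ← Finset.sum_mul, hs]
  field_simp

theorem lh_c2 {N : ℕ} {c : ℝ} {u : (Fin N → ℂ) → ℝ} (hu : LH c u) {w : Fin N → ℂ}
    (hw : w ≠ 0) : ContDiffAt ℝ 2 (fun y => ((u y : ℝ) : ℂ)) w := by
  have h1 : ContDiffAt ℝ ∞ u w := hu.smooth.contDiffAt (isOpen_compl_singleton.mem_nhds hw)
  have h2 : ContDiffAt ℝ 2 u w := h1.of_le (WithTop.coe_le_coe.2 le_top)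
  exact Complex.ofRealCLM.contDiff.contDiffAt.comp w h2

theorem Q_pull (hD5 : T_D5) (hD11 : T_D11) (hL1 : T_L1) (hL2 : T_L2) (hS5 : T_S5)
    (hA9 : T_A9) (hD10 : T_D10) (hW4 : T_W4) {N p q D : ℕ}
    (Φ : Fin N → MvPolynomial (Fin N) ℂ) (S : Form (Fin N) p)
    (u : Fin q → (Fin N → ℂ) → ℝ) (c : Fin q → ℝ) (hN : p + q + 1 = N) (hD : 1 ≤ D)
    (hΦ : IsH D Φ) (hS : ProjForm S) (hu : ∀ j, LH (c j) (u j)) (z : Fin N → ℂ) (hz : z ≠ 0) :
    Q (pull Φ S) (fun j z => u j (ev Φ z)) z =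
      ((D : ℝ) ^ 2)⁻¹ * (‖(jac Φ z).det‖ ^ 2 * Q S u (ev Φ z)) := by
  have hw : ev Φ z ≠ 0 := fun h => hz (hΦ.nd z h)
  have hPS := hD5 N p D Φ S hD hΦ hS
  have huΦ : ∀ j, LH (D * c j) (fun z => u j (ev Φ z)) :=
    fun j => (hL1 N (c j) 0 0 0 (u j) (u j)).2.2.2 D Φ hΦ (hu j)
  have h1 := (hS5 N p q (pull Φ S) _ _ hN hPS huΦ).2.2 z hz
  have h2 := (hS5 N p q S u c hN hS hu).2.2 (ev Φ z) hw
  have h3 := hD10 (Fin N) p (q + 1) Φ S (Fin.snoc (α := fun _ => Matrix (Fin N) (Fin N) ℂ)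
    (fun j => hessR (u j) (ev Φ z)) (Rad (ev Φ z))) z
  obtain ⟨X, hX⟩ : ∃ X : Matrix (Fin N) (Fin N) ℂ, X = fun a b => ∑ a', ∑ b',
    jac Φ z a' a * conj (jac Φ z b' b) * Rad (ev Φ z) a' b' := ⟨_, rfl⟩
  have h4 : (fun j : Fin (q + 1) => fun a b => ∑ a', ∑ b',
      jac Φ z a' a * conj (jac Φ z b' b) *
        (Fin.snoc (α := fun _ => Matrix (Fin N) (Fin N) ℂ)
          (fun j => hessR (u j) (ev Φ z)) (Rad (ev Φ z)) : Fin (q + 1) → _) j a' b') =
      (Fin.snoc (α := fun _ => Matrix (Fin N) (Fin N) ℂ)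
        (fun j => hessR (fun z => u j (ev Φ z)) z) X : Fin (q + 1) → _) := by
    funext j
    refine Fin.lastCases ?_ (fun j => ?_) j
    · rw [Fin.snoc_last, Fin.snoc_last, hX]
    · rw [Fin.snoc_castSucc, Fin.snoc_castSucc]
      funext a b
      exact (hW4 (Fin N) (Fin N) Φ (fun y => ((u j y : ℝ) : ℂ)) z (lh_c2 (hu j) hw) a b).symm
  rw [h4] at h3
  have hJ : (jac Φ z).mulVec z = (D : ℂ) • ev Φ z := (hD11 N D D Φ Φ hD hD hΦ hΦ).2.2.2 z
  have h5 : mixD (pull Φ S z) (Fin.snoc (α := fun _ => Matrix (Fin N) (Fin N) ℂ)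
      (fun j => hessR (fun z => u j (ev Φ z)) z) (X - ((D : ℂ) ^ 2) • Rad z)) = 0 := by
    refine hA9 (Fin N) p (q + 1) (pull Φ S z) _ (Fin.last q) z hz
      (hPS.basicL z hz) (hPS.basicR z hz) ?_ ?_
    · intro j hj
      obtain ⟨j', rfl⟩ := Fin.exists_castSucc_eq.2 hj
      rw [Fin.snoc_castSucc]
      have := hL2 N _ _ (huΦ j') z hz
      exact ⟨this.2.2.1, this.2.2.2.1⟩
    · rw [Fin.snoc_last]
      have e1 : ∑ a, ∑ b, z a * X a b * conj (z b) = (D : ℂ) ^ 2 * (1 / 4) := by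
        rw [hX, quad_form, hJ, ← rad_form hw, Finset.mul_sum]
        refine Finset.sum_congr rfl fun a _ => ?_
        rw [Finset.mul_sum]
        refine Finset.sum_congr rfl fun b _ => ?_
        rw [Pi.smul_apply, Pi.smul_apply, smul_eq_mul, smul_eq_mul, map_mul,
          Complex.conj_natCast]
        ring
      have e2 := rad_form hz
      have e3 : ∀ a b, z a * (X - ((D : ℂ) ^ 2) • Rad z) a b * conj (z b) =
          z a * X a b * conj (z b) - (D : ℂ) ^ 2 * (z a * Rad z a b * conj (z b)) := by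
        intro a b
        simp only [Matrix.sub_apply, Matrix.smul_apply, smul_eq_mul]
        ring
      simp_rw [e3, Finset.sum_sub_distrib, ← Finset.mul_sum]
      rw [e1, e2, sub_self]
  rw [mixD_last] at h5
  have hD0 : (D : ℝ) ≠ 0 := by
    have : 0 < D := by omega
    exact_mod_cast this.ne'
  have h6 : ((((D : ℝ) ^ 2) * Q (pull Φ S) (fun j z => u j (ev Φ z)) z : ℝ) : ℂ) =
      ((‖(jac Φ z).det‖ ^ 2 * Q S u (ev Φ z) : ℝ) : ℂ) := by
    rw [Complex.ofReal_mul, Complex.ofReal_mul, h1, h2, ← h3]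
    push_cast
    exact (sub_eq_zero.1 h5).symm
  have h7 := Complex.ofReal_injective h6
  rw [← h7]
  field_simp

/-- the shell is almost a compact set -/
theorem shell_sub {N : ℕ} : {z : Fin N → ℂ | 0 ≤ ell z ∧ ell z < 1} ⊆
    {z : Fin N → ℂ | 1 ≤ nsq z ∧ nsq z ≤ Real.exp 2} ∪ {0} := by
  intro z hz
  by_cases h0 : z = 0
  · right; exact h0
  · left
    have hp := nsq_pos h0
    obtain ⟨h1, h2⟩ := hz
    unfold ell at h1 h2
    have h3 : 0 ≤ Real.log (nsq z) := by linarith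
    have h4 : Real.log (nsq z) ≤ 2 := by linarith
    exact ⟨(Real.log_nonneg_iff hp).1 h3, (Real.log_le_iff_le_exp hp).1 h4⟩

theorem nsq_cont {N : ℕ} : Continuous (nsq : (Fin N → ℂ) → ℝ) := by
  unfold nsq
  fun_prop

theorem cpt_shell {N : ℕ} : IsCompact {z : Fin N → ℂ | 1 ≤ nsq z ∧ nsq z ≤ Real.exp 2} := by
  refine Metric.isCompact_of_isClosed_isBounded ?_ ?_
  · exact (isClosed_le continuous_const nsq_cont).inter (isClosed_le nsq_cont continuous_const)
  · refine (Metric.isBounded_closedBall (x := (0 : Fin N → ℂ)) (r := Real.exp 2)).subset ?_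
    intro z hz
    rw [mem_closedBall_zero_iff, pi_norm_le_iff_of_nonneg (Real.exp_pos 2).le]
    intro i
    have h1 : ‖z i‖ ^ 2 ≤ nsq z :=
      Finset.single_le_sum (f := fun i => ‖z i‖ ^ 2) (fun i _ => by positivity)
        (Finset.mem_univ i)
    have h2 : ‖z i‖ ^ 2 ≤ Real.exp 2 := h1.trans hz.2
    have h3 : 1 ≤ Real.exp 2 := Real.one_le_exp (by norm_num)
    nlinarith [norm_nonneg (z i)]

theorem ell_smul {N : ℕ} {r : ℝ} (hr : 0 < r) {z : Fin N → ℂ} (hz : z ≠ 0) :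
    ell ((r : ℂ) • z) = Real.log r + ell z := by
  have hn : nsq ((r : ℂ) • z) = r ^ 2 * nsq z := by
    unfold nsq
    rw [Finset.mul_sum]
    refine Finset.sum_congr rfl fun i _ => ?_
    rw [Pi.smul_apply, smul_eq_mul, norm_mul, Complex.norm_of_nonneg hr.le, mul_pow]
  unfold ell
  rw [hn, Real.log_mul (by positivity) (nsq_pos hz).ne', Real.log_pow]
  push_cast
  ring

theorem ev_cont {N : ℕ} (Φ : Fin N → MvPolynomial (Fin N) ℂ) : Continuous (ev Φ) :=
  continuous_pi fun i => MvPolynomial.continuous_eval (Φ i)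

theorem jac_cont {N : ℕ} (Φ : Fin N → MvPolynomial (Fin N) ℂ) :
    Continuous (fun z => (jac Φ z).det) := by
  refine Continuous.matrix_det ?_
  refine continuous_matrix fun i a => ?_
  exact MvPolynomial.continuous_eval (MvPolynomial.pderiv a (Φ i))

theorem pf_G4 (hG3 : T_G3) (hS4 : T_S4) (hS5 : T_S5) (hA9 : T_A9) (hD10 : T_D10)
    (hW4 : T_W4) (hL2 : T_L2) (hD5 : T_D5) (hD11 : T_D11) (hL1 : T_L1) : T_G4 := by
  intro N p q D Φ S u c φ B hN hD hΦ hS hu hφm hφB hφh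
  have hN0 : 0 < N := by omega
  have hD0 : (0 : ℝ) < D := by exact_mod_cast hD
  have : Nonempty (Fin N) := ⟨⟨0, hN0⟩⟩
  obtain ⟨hQc, hQh, -⟩ := hS5 N p q S u c hN hS hu
  obtain ⟨-, hevh, hjach, -⟩ := hD11 N D D Φ Φ hD hD hΦ hΦ
  have hQm : Measurable (fun z => Q S u z) := measurable_of_continuousOn_compl_singleton 0 hQc
  have hellm : Measurable (ell : (Fin N → ℂ) → ℝ) := by
    unfold ell
    exact (Real.measurable_log.comp nsq_cont.measurable).const_mul _
  have hevm : Measurable (ev Φ) := (ev_cont Φ).measurable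
  have hdetm : Measurable (fun z => ‖(jac Φ z).det‖ ^ 2) :=
    ((jac_cont Φ).norm.pow 2).measurable
  have hev0 : ∀ z, z ≠ 0 → ev Φ z ≠ 0 := fun z hz h => hz (hΦ.nd z h)
  set ψ : (Fin N → ℂ) → ℝ := fun z => φ (ev Φ z) * (‖(jac Φ z).det‖ ^ 2 * Q S u (ev Φ z))
    with hψ
  set g : (Fin N → ℂ) → ℝ := fun z => ell (ev Φ z) - D * ell z with hg
  set θ : ℝ → ℝ := Set.indicator (Set.Ico 0 1) (fun _ => 1) with hθ
  have hψm : Measurable ψ :=
    (hφm.comp hevm).mul (hdetm.mul (hQm.comp hevm))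
  have hgm : Measurable g := (hellm.comp hevm).sub (hellm.const_mul _)
  have hθm : Measurable θ := measurable_const.indicator measurableSet_Ico
  have hθi : Integrable θ := by
    rw [hθ, integrable_indicator_iff measurableSet_Ico]
    exact integrableOn_const (by simp)
  have hθv : ∫ t, θ t = 1 := by
    rw [hθ, integral_indicator measurableSet_Ico]
    simp
  have hψi : IntegrableOn ψ {z : Fin N → ℂ | 0 ≤ ell z ∧ ell z < 1} := by
    have h1 : IntegrableOn (fun z => ‖(jac Φ z).det‖ ^ 2 * Q S u (ev Φ z))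
        {z : Fin N → ℂ | 0 ≤ ell z ∧ ell z < 1} := by
      refine IntegrableOn.mono_set ?_ shell_sub
      refine IntegrableOn.union ?_ ?_
      · refine ContinuousOn.integrableOn_compact cpt_shell ?_
        refine ((jac_cont Φ).norm.pow 2).continuousOn.mul ?_
        refine hQc.comp (ev_cont Φ).continuousOn ?_
        intro z hz
        have hz0 : z ≠ 0 := by
          rintro rfl
          have h := hz.1
          unfold nsq at h
          simp at h
          linarith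
        exact hev0 z hz0
      · have : (volume : Measure (Fin N → ℂ)) {0} = 0 := measure_singleton 0
        exact IntegrableOn.of_measure_zero this
    refine Integrable.bdd_mul (c := B) h1 (hφm.comp hevm).aestronglyMeasurable ?_
    exact Filter.Eventually.of_forall fun z => hφB _
  have hψh : ∀ (r : ℝ) (z : Fin N → ℂ), 0 < r → z ≠ 0 →
      ψ ((r : ℂ) • z) = (r ^ (2 * N))⁻¹ * ψ z := by
    intro r z hr hz
    have hrc : ((r : ℂ) ^ D) ≠ 0 := pow_ne_zero _ (by exact_mod_cast hr.ne')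
    have e1 := hevh (r : ℂ) z
    have e2 := hφh ((r : ℂ) ^ D) (ev Φ z) hrc (hev0 z hz)
    have e3 := hQh ((r : ℂ) ^ D) (ev Φ z) hrc (hev0 z hz)
    have e4 := hjach (r : ℂ) z
    show φ (ev Φ ((r : ℂ) • z)) * (‖(jac Φ ((r : ℂ) • z)).det‖ ^ 2 *
      Q S u (ev Φ ((r : ℂ) • z))) = _
    rw [e1, e2, e3, e4, Matrix.det_smul, Fintype.card_fin, norm_mul, norm_pow, norm_pow,
      norm_pow, Complex.norm_of_nonneg hr.le]
    show _ = (r ^ (2 * N))⁻¹ * (φ (ev Φ z) * (‖(jac Φ z).det‖ ^ 2 * Q S u (ev Φ z)))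
    have e5 : ((r ^ (D - 1)) ^ N) ^ 2 * ((r ^ D) ^ (2 * N))⁻¹ = (r ^ (2 * N))⁻¹ := by
      obtain ⟨k, rfl⟩ : ∃ k, D = k + 1 := ⟨D - 1, by omega⟩
      have hr0 : r ≠ 0 := hr.ne'
      have e6 : ((r ^ k) ^ N) ^ 2 = (r ^ k) ^ (2 * N) := by
        rw [← pow_mul, mul_comm N 2]
      have e7 : (r ^ (k + 1)) ^ (2 * N) = (r ^ k) ^ (2 * N) * r ^ (2 * N) := by
        rw [pow_succ, mul_pow]
      rw [Nat.add_sub_cancel, e6, e7, mul_inv, ← mul_assoc,
        mul_inv_cancel₀ (pow_ne_zero _ (pow_ne_zero _ hr0)), one_mul]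
    calc φ (ev Φ z) * (((r ^ (D - 1)) ^ N * ‖(jac Φ z).det‖) ^ 2 *
          (((r ^ D) ^ (2 * N))⁻¹ * Q S u (ev Φ z)))
        = (((r ^ (D - 1)) ^ N) ^ 2 * ((r ^ D) ^ (2 * N))⁻¹) *
          (φ (ev Φ z) * (‖(jac Φ z).det‖ ^ 2 * Q S u (ev Φ z))) := by ring
      _ = _ := by rw [e5]
  have hgh : ∀ (r : ℝ) (z : Fin N → ℂ), 0 < r → z ≠ 0 → g ((r : ℂ) • z) = g z := by
    intro r z hr hz
    show ell (ev Φ ((r : ℂ) • z)) - D * ell ((r : ℂ) • z) = ell (ev Φ z) - D * ell z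
    have e : (r : ℂ) ^ D = ((r ^ D : ℝ) : ℂ) := by push_cast; rfl
    rw [hevh, e, ell_smul (pow_pos hr D) (hev0 z hz), ell_smul hr hz, Real.log_pow]
    ring
  obtain ⟨-, hI⟩ := hS4 N ψ g D θ hN0 hD0 hψm hgm hψi hψh hgh hθm hθi
  rw [hθv, mul_one] at hI
  -- the change of variables
  have hG := hG3 N D Φ hD hΦ
  set F : (Fin N → ℂ) → ℝ := fun w => φ w * Q S u w * θ (ell w) with hF
  have hFm : Measurable F := (hφm.mul hQm).mul (hθm.comp hellm)
  have hC1 : ∫ w, F w ∂(Measure.map (ev Φ)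
      ((volume : Measure (Fin N → ℂ)).withDensity
        (fun z => ENNReal.ofReal (‖(jac Φ z).det‖ ^ 2)))) =
      ∫ z, ψ z * θ (D * ell z + g z) := by
    have hdm : Measurable (fun z => ENNReal.ofReal (‖(jac Φ z).det‖ ^ 2)) :=
      ENNReal.measurable_ofReal.comp hdetm
    rw [integral_map hevm.aemeasurable hFm.aestronglyMeasurable,
      integral_withDensity_eq_integral_toReal_smul hdm
        (Filter.Eventually.of_forall fun z => ENNReal.ofReal_lt_top)]
    refine integral_congr_ae (Filter.Eventually.of_forall fun z => ?_)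
    show (ENNReal.ofReal (‖(jac Φ z).det‖ ^ 2)).toReal •
      (φ (ev Φ z) * Q S u (ev Φ z) * θ (ell (ev Φ z))) =
      φ (ev Φ z) * (‖(jac Φ z).det‖ ^ 2 * Q S u (ev Φ z)) *
        θ (D * ell z + (ell (ev Φ z) - D * ell z))
    rw [ENNReal.toReal_ofReal (by positivity), smul_eq_mul]
    have : (D : ℝ) * ell z + (ell (ev Φ z) - D * ell z) = ell (ev Φ z) := by ring
    rw [this]
    ring
  have hC2 : ∫ w, F w = pair φ S u := by
    unfold pair Iint
    have hms : MeasurableSet {z : Fin N → ℂ | 0 ≤ ell z ∧ ell z < 1} :=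
      hellm measurableSet_Ico
    rw [← integral_indicator hms]
    refine integral_congr_ae (Filter.Eventually.of_forall fun z => ?_)
    show φ z * Q S u z * Set.indicator (Set.Ico 0 1) (fun _ => (1 : ℝ)) (ell z) =
      Set.indicator {z : Fin N → ℂ | 0 ≤ ell z ∧ ell z < 1} (fun z => φ z * Q S u z) z
    by_cases hz : 0 ≤ ell z ∧ ell z < 1
    · rw [Set.indicator_of_mem (show ell z ∈ Set.Ico (0 : ℝ) 1 from hz),
        Set.indicator_of_mem (show z ∈ {z : Fin N → ℂ | 0 ≤ ell z ∧ ell z < 1} from hz),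
        mul_one]
    · rw [Set.indicator_of_notMem (show ell z ∉ Set.Ico (0 : ℝ) 1 from hz),
        Set.indicator_of_notMem
          (show z ∉ {z : Fin N → ℂ | 0 ≤ ell z ∧ ell z < 1} from hz), mul_zero]
  have hC3 : (D : ℝ) ^ N * pair φ S u = (D : ℝ)⁻¹ * Iint ψ := by
    rw [← hI, ← hC1, hG, integral_smul_measure, hC2, smul_eq_mul, ENNReal.toReal_pow,
      ENNReal.toReal_natCast]
  have hC4 : pair (fun z => φ (ev Φ z)) (pull Φ S) (fun j z => u j (ev Φ z)) =
      ((D : ℝ) ^ 2)⁻¹ * Iint ψ := by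
    unfold pair Iint
    rw [← integral_const_mul]
    refine integral_congr_ae ?_
    have h0 : ∀ᵐ z : Fin N → ℂ, z ≠ 0 := by
      have : (volume : Measure (Fin N → ℂ)) {0} = 0 := measure_singleton 0
      exact compl_mem_ae_iff.2 this
    filter_upwards [ae_restrict_of_ae h0] with z hz
    rw [Q_pull hD5 hD11 hL1 hL2 hS5 hA9 hD10 hW4 Φ S u c hN hD hΦ hS hu z hz]
    show φ (ev Φ z) * (((D : ℝ) ^ 2)⁻¹ * (‖(jac Φ z).det‖ ^ 2 * Q S u (ev Φ z))) =
      ((D : ℝ) ^ 2)⁻¹ * (φ (ev Φ z) * (‖(jac Φ z).det‖ ^ 2 * Q S u (ev Φ z)))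
    ring
  rw [hC4]
  have hD1 : (D : ℝ) ≠ 0 := hD0.ne'
  have h8 : Iint ψ = (D : ℝ) ^ (N + 1) * pair φ S u := by
    have : Iint ψ = D * ((D : ℝ)⁻¹ * Iint ψ) := by field_simp
    rw [this, ← hC3]
    ring
  rw [h8]
  obtain ⟨k, rfl⟩ : ∃ k, N = k + 1 := ⟨N - 1, by omega⟩
  rw [Nat.add_sub_cancel]
  field_simp
  ring

end

end Pool.Agent.H17.EQD
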