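import Pool.Agent.H92.EQ.TT
import Pool.Agent.H78.EQ.Wir
import Pool.Agent.H17.EQD.G4

/-!
# TN: the function `am` on invertible matrices
-/

set_option autoImplicit false

namespace Pool.Agent.H17.EQD

open scoped BigOperators ComplexConjugate ContDiff ComplexOrder
open MeasureTheory Filter Topology
open Pool.Agent.H92.EQ Pool.Agent.H78.EQ

noncomputable section

variable {N : ℕ}

/-- the set of pairs of an invertible matrix and a nonzero vector -/
def PU (N : ℕ) : Set ((Fin N → Fin N → ℂ) × (Fin N → ℂ)) :=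
  {P | (Matrix.of P.1).det ≠ 0 ∧ P.2 ≠ 0}

theorem det_cont : Continuous (fun X : Fin N → Fin N → ℂ => (Matrix.of X).det) := by
  refine Continuous.matrix_det ?_
  exact continuous_id

theorem det_open : IsOpen {X : Fin N → Fin N → ℂ | (Matrix.of X).det ≠ 0} :=
  isOpen_ne_fun det_cont continuous_const

theorem PU_open : IsOpen (PU N) := by
  have h1 : IsOpen {P : (Fin N → Fin N → ℂ) × (Fin N → ℂ) | (Matrix.of P.1).det ≠ 0} :=
    det_open.preimage continuous_fst
  have h2 : IsOpen {P : (Fin N → Fin N → ℂ) × (Fin N → ℂ) | P.2 ≠ 0} :=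
    isOpen_compl_singleton.preimage continuous_snd
  exact h1.inter h2

/-- the Hessian of a smooth function is continuous -/
theorem hess_cont {c : ℝ} {u : (Fin N → ℂ) → ℝ} (hu : LH c u) (a b : Fin N) :
    ContinuousOn (fun z => hessR u z a b) {0}ᶜ := by
  have h1 : ContDiffOn ℝ ∞ (fun w => ((u w : ℝ) : ℂ)) ({0}ᶜ : Set (Fin N → ℂ)) :=
    Complex.ofRealCLM.contDiff.comp_contDiffOn hu.smooth
  have h2 := (pf_W6 (Fin N) b _ _ isOpen_compl_singleton h1).2
  have h3 := (pf_W6 (Fin N) a _ _ isOpen_compl_singleton h2).1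
  exact h3.continuousOn

theorem rad_cont (a b : Fin N) : ContinuousOn (fun z : Fin N → ℂ => Rad z a b) {0}ᶜ := by
  unfold Rad
  refine ContinuousOn.div ?_ ?_ ?_
  · exact (Continuous.mul (Complex.continuous_conj.comp (continuous_apply a))
      (continuous_apply b)).continuousOn
  · exact (continuous_const.mul ((Complex.continuous_ofReal.comp nsq_cont).pow 2)).continuousOn
  · intro z hz
    have := nsq_pos (w := z) hz
    have h : ((nsq z : ℝ) : ℂ) ≠ 0 := by exact_mod_cast this.ne'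
    positivity

theorem pull_lin (hD8 : T_D8) (hD13 : T_D13) {p : ℕ} (Φ : Fin N → MvPolynomial (Fin N) ℂ)
    (S : Form (Fin N) p) (A : Matrix (Fin N) (Fin N) ℂ) (z : Fin N → ℂ) (I J : Fin p → Fin N) :
    pull (cmp (lin A) Φ) S z I J = ∑ I' : Fin p → Fin N, ∑ J' : Fin p → Fin N,
      S (A.mulVec (ev Φ z)) I' J' * (∏ l, (A * jac Φ z) (I' l) (I l)) *
        ∏ l, conj ((A * jac Φ z) (J' l) (J l)) := by
  have h := hD8 N p (lin A) Φ S z
  have h1 := hD13 N A A (ev Φ z)
  have e1 : ev (cmp (lin A) Φ) z = A.mulVec (ev Φ z) := by rw [h.1, h1.1]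
  have e2 : jac (cmp (lin A) Φ) z = A * jac Φ z := by rw [h.2.1, h1.2.1]
  unfold pull
  rw [e1, e2]

theorem pull_cont (hD8 : T_D8) (hD13 : T_D13) {p D : ℕ} (Φ : Fin N → MvPolynomial (Fin N) ℂ)
    (hΦ : IsH D Φ) (S : Form (Fin N) p) (hS : ProjForm S) (I J : Fin p → Fin N) :
    ContinuousOn (fun P : (Fin N → Fin N → ℂ) × (Fin N → ℂ) =>
      pull (cmp (lin (Matrix.of P.1)) Φ) S P.2 I J) (PU N) := by
  simp_rw [pull_lin hD8 hD13]
  have hX : Continuous (fun P : (Fin N → Fin N → ℂ) × (Fin N → ℂ) =>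
      (Matrix.of P.1 : Matrix (Fin N) (Fin N) ℂ)) := continuous_fst
  have hev : Continuous (fun P : (Fin N → Fin N → ℂ) × (Fin N → ℂ) => ev Φ P.2) :=
    (ev_cont Φ).comp continuous_snd
  have hjac : Continuous (fun P : (Fin N → Fin N → ℂ) × (Fin N → ℂ) => jac Φ P.2) := by
    refine continuous_matrix fun i a => ?_
    exact (MvPolynomial.continuous_eval (MvPolynomial.pderiv a (Φ i))).comp continuous_snd
  have hXJ : Continuous (fun P : (Fin N → Fin N → ℂ) × (Fin N → ℂ) =>
      (Matrix.of P.1 : Matrix (Fin N) (Fin N) ℂ) * jac Φ P.2) := hX.matrix_mul hjac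
  have hmv : Continuous (fun P : (Fin N → Fin N → ℂ) × (Fin N → ℂ) =>
      (Matrix.of P.1 : Matrix (Fin N) (Fin N) ℂ).mulVec (ev Φ P.2)) := hX.matrix_mulVec hev
  refine continuousOn_finsetSum _ fun I' _ => continuousOn_finsetSum _ fun J' _ => ?_
  refine ContinuousOn.mul (ContinuousOn.mul ?_ ?_) ?_
  · refine ContinuousOn.comp (t := {0}ᶜ) (hS.cp.smooth I' J').continuousOn hmv.continuousOn ?_
    intro P hP h0
    have h1 : (Matrix.of P.1 : Matrix (Fin N) (Fin N) ℂ).mulVec (ev Φ P.2) = 0 := h0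
    have h2 := Matrix.eq_zero_of_mulVec_eq_zero hP.1 h1
    exact hP.2 (hΦ.nd _ h2)
  · refine Continuous.continuousOn (continuous_finsetProd _ fun l _ => ?_)
    exact hXJ.matrix_elem _ _
  · refine Continuous.continuousOn (continuous_finsetProd _ fun l _ => ?_)
    exact Complex.continuous_conj.comp (hXJ.matrix_elem _ _)

theorem W_cont (hD8 : T_D8) (hD13 : T_D13) {p q D : ℕ} (Φ : Fin N → MvPolynomial (Fin N) ℂ)
    (hΦ : IsH D Φ) (S : Form (Fin N) p) (hS : ProjForm S) (φ : (Fin N → ℂ) → ℝ)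
    (hφ : Hom0 φ) (u : Fin q → (Fin N → ℂ) → ℝ) (c : Fin q → ℝ) (hu : ∀ j, LH (c j) (u j)) :
    ContinuousOn (fun P : (Fin N → Fin N → ℂ) × (Fin N → ℂ) =>
      φ P.2 * Q (pull (cmp (lin (Matrix.of P.1)) Φ) S) u P.2) (PU N) := by
  have hsnd : ∀ {f : (Fin N → ℂ) → ℂ}, ContinuousOn f {0}ᶜ →
      ContinuousOn (fun P : (Fin N → Fin N → ℂ) × (Fin N → ℂ) => f P.2) (PU N) := by
    intro f hf
    exact hf.comp continuous_snd.continuousOn fun P hP => hP.2
  refine ContinuousOn.mul ?_ ?_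
  · exact hφ.smooth.continuousOn.comp continuous_snd.continuousOn fun P hP => hP.2
  · unfold Q mixD
    refine Complex.continuous_re.comp_continuousOn ?_
    refine continuousOn_finsetSum _ fun e _ => continuousOn_finsetSum _ fun e' _ => ?_
    refine ContinuousOn.mul (continuousOn_const.mul (pull_cont hD8 hD13 Φ hΦ S hS _ _)) ?_
    refine continuousOn_finsetProd _ fun j _ => ?_
    refine Fin.lastCases ?_ (fun j => ?_) j
    · simp only [Fin.snoc_last]
      exact hsnd (rad_cont _ _)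
    · simp only [Fin.snoc_castSucc]
      exact hsnd (hess_cont (hu j) _ _)

theorem pf_TN (hD5 : T_D5) (hD8 : T_D8) (hD11 : T_D11) (hD13 : T_D13) (hP3 : T_P3)
    (hP5 : T_P5) (hL1 : T_L1) : T_TN := by
  intro N p q D Φ S φ u B hN hD hΦ hS hφ hu hB
  have hN0 : 0 < N := by omega
  have hne : Nonempty (Fin N) := ⟨⟨0, hN0⟩⟩
  have h3 : ∀ A : Matrix (Fin N) (Fin N) ℂ, A.det ≠ 0 →
      ProjForm (pull (cmp (lin A) Φ) S) ∧
      mass q (pull (cmp (lin A) Φ) S) = (D : ℝ) ^ p * mass q S := by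
    intro A hA
    have h1 := (hD13 N A A 0).2.2.1 hA
    have h2 := (hD11 N 1 D (lin A) Φ le_rfl hD h1 hΦ).1
    rw [one_mul] at h2
    exact ⟨hD5 N p D _ S hD h2 hS, (hP5 N p q D S hN hS).1 _ hD h2⟩
  refine ⟨?_, ?_, h3⟩
  · have huL : ∀ j, LH 1 (u j) := fun j => (hL1 N 0 0 0 0 (u j) (u j)).2.2.1 (hu j)
    have hW := W_cont hD8 hD13 Φ hΦ S hS φ hφ u (fun _ => 1) huL
    intro X₀ hX₀
    refine ContinuousAt.continuousWithinAt ?_
    obtain ⟨K, hK, hXK, hKU⟩ := exists_compact_subset det_open hX₀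
    have hKK := hK.prod (cpt_shell (N := N))
    have hsub : K ×ˢ {z : Fin N → ℂ | 1 ≤ nsq z ∧ nsq z ≤ Real.exp 2} ⊆ PU N := by
      rintro ⟨X, z⟩ ⟨h1, h2⟩
      refine ⟨hKU h1, ?_⟩
      rintro rfl
      have h := h2.1
      unfold nsq at h
      simp at h
      linarith
    obtain ⟨M, hM⟩ := hKK.exists_bound_of_continuousOn (hW.mono hsub)
    have h0 : ∀ᵐ z : Fin N → ℂ, z ≠ 0 := by
      have : (volume : Measure (Fin N → ℂ)) {0} = 0 := measure_singleton 0
      exact compl_mem_ae_iff.2 this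
    have hellm : Measurable (ell : (Fin N → ℂ) → ℝ) := by
      unfold ell
      exact (Real.measurable_log.comp nsq_cont.measurable).const_mul _
    have hms : MeasurableSet {z : Fin N → ℂ | 0 ≤ ell z ∧ ell z < 1} :=
      hellm measurableSet_Ico
    have hfin : IsFiniteMeasure ((volume : Measure (Fin N → ℂ)).restrict
        {z : Fin N → ℂ | 0 ≤ ell z ∧ ell z < 1}) := by
      refine ⟨?_⟩
      rw [Measure.restrict_apply_univ]
      refine lt_of_le_of_lt (measure_mono shell_sub) ?_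
      refine lt_of_le_of_lt (measure_union_le _ _) ?_
      exact ENNReal.add_lt_top.2 ⟨cpt_shell.measure_lt_top, by
        rw [measure_singleton]; exact ENNReal.zero_lt_top⟩
    have hnear : ∀ᶠ X in 𝓝 X₀, X ∈ K := mem_interior_iff_mem_nhds.1 hXK
    show ContinuousAt (fun X : Fin N → Fin N → ℂ =>
      ∫ z in {z : Fin N → ℂ | 0 ≤ ell z ∧ ell z < 1},
        φ z * Q (pull (cmp (lin (Matrix.of X)) Φ) S) u z) X₀
    refine continuousAt_of_dominated (bound := fun _ => M) ?_ ?_ (integrable_const M) ?_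
    · filter_upwards [hnear] with X hX
      refine Measurable.aestronglyMeasurable ?_
      refine measurable_of_continuousOn_compl_singleton 0 ?_
      exact hW.comp (Continuous.continuousOn (by fun_prop : Continuous fun z : Fin N → ℂ =>
        ((X, z) : (Fin N → Fin N → ℂ) × (Fin N → ℂ)))) fun z hz => ⟨hKU hX, hz⟩
    · filter_upwards [hnear] with X hX
      filter_upwards [ae_restrict_of_ae h0, ae_restrict_mem hms] with z hz hz2
      have h5 : z ∈ {z : Fin N → ℂ | 1 ≤ nsq z ∧ nsq z ≤ Real.exp 2} :=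
        (shell_sub hz2).resolve_right hz
      exact hM (X, z) ⟨hX, h5⟩
    · filter_upwards [ae_restrict_of_ae h0] with z hz
      have h6 := hW.continuousAt (PU_open.mem_nhds (show (X₀, z) ∈ PU N from ⟨hX₀, hz⟩))
      exact ContinuousAt.comp (f := fun X : Fin N → Fin N → ℂ => (X, z)) (x := X₀) h6
        (by fun_prop)
  · intro A hA
    obtain ⟨h4, h5⟩ := h3 A hA
    have h6 := (hP3 N p q _ u hN h4 hu).2.2.2 φ B hB
    rw [h5] at h6
    exact h6

end

end Pool.Agent.H17.EQD
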