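import Pool.Agent.H92.EQ.TF1
import Pool.Agent.H78.EQ.Wir

/-!
# W7: the Hessian of a composition and of a product
-/

set_option autoImplicit false

namespace Pool.Agent.H17.EQD

open scoped BigOperators ComplexConjugate ContDiff ComplexOrder
open MeasureTheory Filter Topology
open Pool.Agent.H92.EQ Pool.Agent.H78.EQ

noncomputable section

variable {ι : Type} [Fintype ι] [DecidableEq ι]

theorem fd_cx {φ : (ι → ℂ) → ℝ} {z : ι → ℂ} (hφ : DifferentiableAt ℝ φ z) (v : ι → ℂ) :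
    fderiv ℝ (cx φ) z v = ((fderiv ℝ φ z v : ℝ) : ℂ) := by
  have h := (Complex.ofRealCLM.hasFDerivAt (x := φ z)).comp z hφ.hasFDerivAt
  have h2 : fderiv ℝ (cx φ) z = Complex.ofRealCLM.comp (fderiv ℝ φ z) := h.fderiv
  rw [h2]
  rfl

theorem fd_comp {φ : (ι → ℂ) → ℝ} {χ : ℝ → ℝ} {z : ι → ℂ} (hφ : DifferentiableAt ℝ φ z)
    (hχ : DifferentiableAt ℝ χ (φ z)) (v : ι → ℂ) :
    fderiv ℝ (cx fun w => χ (φ w)) z v = ((deriv χ (φ z) : ℝ) : ℂ) * fderiv ℝ (cx φ) z v := by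
  have h0 : HasFDerivAt (fun w => χ (φ w)) (deriv χ (φ z) • fderiv ℝ φ z) z :=
    hχ.hasDerivAt.comp_hasFDerivAt z hφ.hasFDerivAt
  rw [fd_cx h0.differentiableAt, fd_cx hφ, h0.fderiv]
  show ((deriv χ (φ z) * fderiv ℝ φ z v : ℝ) : ℂ) = _
  push_cast
  ring

theorem wd_comp {φ : (ι → ℂ) → ℝ} {χ : ℝ → ℝ} {z : ι → ℂ} (hφ : DifferentiableAt ℝ φ z)
    (hχ : DifferentiableAt ℝ χ (φ z)) (a : ι) :
    wd a (cx fun w => χ (φ w)) z = ((deriv χ (φ z) : ℝ) : ℂ) * wd a (cx φ) z := by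
  unfold wd
  rw [fd_comp hφ hχ, fd_comp hφ hχ]
  ring

theorem wdb_comp {φ : (ι → ℂ) → ℝ} {χ : ℝ → ℝ} {z : ι → ℂ} (hφ : DifferentiableAt ℝ φ z)
    (hχ : DifferentiableAt ℝ χ (φ z)) (a : ι) :
    wdb a (cx fun w => χ (φ w)) z = ((deriv χ (φ z) : ℝ) : ℂ) * wdb a (cx φ) z := by
  unfold wdb
  rw [fd_comp hφ hχ, fd_comp hφ hχ]
  ring

theorem cx_c2 {φ : (ι → ℂ) → ℝ} {z : ι → ℂ} (hφ : ContDiffAt ℝ 2 φ z) :
    ContDiffAt ℝ 2 (cx φ) z :=
  Complex.ofRealCLM.contDiff.contDiffAt.comp z hφ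

theorem wd_congr {f g : (ι → ℂ) → ℂ} {z : ι → ℂ} (h : f =ᶠ[𝓝 z] g) (a : ι) :
    wd a f z = wd a g z := by
  unfold wd
  rw [h.fderiv_eq]

theorem ev_diff {E F : Type*} [NormedAddCommGroup E] [NormedSpace ℝ E] [NormedAddCommGroup F]
    [NormedSpace ℝ F] {f : E → F} {z : E} (hf : ContDiffAt ℝ 2 f z) :
    ∀ᶠ w in 𝓝 z, DifferentiableAt ℝ f w := by
  filter_upwards [hf.eventually (by simp)] with w hw
  exact hw.differentiableAt (by norm_num)

theorem fd_diffR {χ : ℝ → ℝ} {x : ℝ} (h : ContDiffAt ℝ 2 χ x) :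
    DifferentiableAt ℝ (deriv χ) x := by
  have h1 : DifferentiableAt ℝ (fderiv ℝ χ) x :=
    (h.fderiv_right (m := 1) (by norm_num)).differentiableAt (by norm_num)
  have h2 : DifferentiableAt ℝ (fun y => fderiv ℝ χ y 1) x :=
    h1.clm_apply (differentiableAt_const _)
  exact h2

theorem pf_W7 : T_W7 := by
  intro ι _ _ φ ψ χ z hφ hψ hχ
  have dφ : DifferentiableAt ℝ φ z := hφ.differentiableAt (by norm_num)
  have dψ : DifferentiableAt ℝ ψ z := hψ.differentiableAt (by norm_num)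
  have dχ : DifferentiableAt ℝ χ (φ z) := hχ.differentiableAt (by norm_num)
  have eφ := ev_diff hφ
  have eψ := ev_diff hψ
  have eχ : ∀ᶠ w in 𝓝 z, DifferentiableAt ℝ χ (φ w) :=
    hφ.continuousAt.eventually (ev_diff hχ)
  refine ⟨fun a => wd_comp dφ dχ a, fun a => wdb_comp dφ dχ a, ?_, ?_⟩
  · ext a b
    have hev : (fun w => wdb b (cx fun w => χ (φ w)) w) =ᶠ[𝓝 z]
        fun w => (cx fun w => deriv χ (φ w)) w * wdb b (cx φ) w := by
      filter_upwards [eφ, eχ] with w h1 h2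
      exact wdb_comp h1 h2 b
    have dχ2 : DifferentiableAt ℝ (deriv χ) (φ z) := by
      have h := fd_diffR hχ
      exact h
    have h3 : DifferentiableAt ℝ (cx fun w => deriv χ (φ w)) z :=
      (Complex.ofRealCLM.differentiableAt).comp z (dχ2.comp z dφ)
    have h4 := (pf_W1 ι a (cx fun w => deriv χ (φ w)) (fun w => wdb b (cx φ) w) z h3
      (wdb_diff (cx_c2 hφ) b)).2.2.1
    show wd a (fun w => wdb b (cx fun w => χ (φ w)) w) z = _
    rw [wd_congr hev a, h4, wd_comp dφ dχ2]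
    show ((deriv χ (φ z) : ℝ) : ℂ) * wd a (fun w => wdb b (cx φ) w) z +
      wdb b (cx φ) z * (((deriv (deriv χ) (φ z) : ℝ) : ℂ) * wd a (cx φ) z) =
      ((deriv χ (φ z) : ℝ) : ℂ) * wd a (fun w => wdb b (cx φ) w) z +
      ((deriv (deriv χ) (φ z) : ℝ) : ℂ) * (wd a (cx φ) z * wdb b (cx φ) z)
    ring
  · ext a b
    have dcφ := (cx_c2 hφ).differentiableAt (by norm_num)
    have dcψ := (cx_c2 hψ).differentiableAt (by norm_num)
    have hev : (fun w => wdb b (cx fun w => φ w * ψ w) w) =ᶠ[𝓝 z]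
        fun w => cx φ w * wdb b (cx ψ) w + cx ψ w * wdb b (cx φ) w := by
      filter_upwards [ev_diff (cx_c2 hφ), ev_diff (cx_c2 hψ)] with w h1 h2
      have e : (cx fun w => φ w * ψ w) = fun w => cx φ w * cx ψ w := by
        funext w
        show ((φ w * ψ w : ℝ) : ℂ) = (φ w : ℂ) * (ψ w : ℂ)
        push_cast
        rfl
      rw [e]
      exact (pf_W1 ι b (cx φ) (cx ψ) w h1 h2).2.2.2.1
    have k1 := wdb_diff (cx_c2 hψ) b
    have k2 := wdb_diff (cx_c2 hφ) b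
    have h5 := (pf_W1 ι a (fun w => cx φ w * wdb b (cx ψ) w)
      (fun w => cx ψ w * wdb b (cx φ) w) z (dcφ.mul k1) (dcψ.mul k2)).1
    have h6 := (pf_W1 ι a (cx φ) (fun w => wdb b (cx ψ) w) z dcφ k1).2.2.1
    have h7 := (pf_W1 ι a (cx ψ) (fun w => wdb b (cx φ) w) z dcψ k2).2.2.1
    show wd a (fun w => wdb b (cx fun w => φ w * ψ w) w) z = _
    rw [wd_congr hev a, h5, h6, h7]
    show (φ z : ℂ) * wd a (fun w => wdb b (cx ψ) w) z + wdb b (cx ψ) z * wd a (cx φ) z +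
      ((ψ z : ℂ) * wd a (fun w => wdb b (cx φ) w) z + wdb b (cx φ) z * wd a (cx ψ) z) =
      (φ z : ℂ) * wd a (fun w => wdb b (cx ψ) w) z +
      (ψ z : ℂ) * wd a (fun w => wdb b (cx φ) w) z +
      wd a (cx φ) z * wdb b (cx ψ) z + wd a (cx ψ) z * wdb b (cx φ) z
    ring

end

end Pool.Agent.H17.EQD
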